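import Pool.Agent.H36.RP.CMP2

/-!
# Structure of Furstenberg systems (MP_c59857_nt): the bias process is stationary
-/

set_option autoImplicit false

open MeasureTheory ProbabilityTheory Filter Topology Finset

namespace Pool.Agent.H28.MG

open Pool.Agent.H89.MT (I1 X pt z1 IsMult)
open Pool.Agent.H36.RP (S past remote remote_le past_le comp ae_comp meas_y abs_y)

/-- the inverse of the shift -/
def Si (x : X) : X := fun t => x (t - 1)

theorem S_Si (x : X) : S (Si x) = x := by
  funext t
  show x (t + 1 - 1) = x t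
  rw [add_sub_cancel_right]

theorem Si_S (x : X) : Si (S x) = x := by
  funext t
  show x (t - 1 + 1) = x t
  rw [sub_add_cancel]

theorem comap_past (q : ℤ) : MeasurableSpace.comap S (past q) = past (q + 1) := by
  unfold past
  simp only [MeasurableSpace.comap_iSup, MeasurableSpace.comap_comp]
  apply le_antisymm
  · refine iSup_le fun k => iSup_le fun hk => ?_
    exact le_iSup_of_le (k + 1) (le_iSup_of_le (by omega) le_rfl)
  · refine iSup_le fun k => iSup_le fun hk => ?_
    refine le_iSup_of_le (k - 1) (le_iSup_of_le (by omega) ?_)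
    have h1 : ((fun x : X => x (k - 1)) ∘ S) = fun x : X => x k := by
      funext x
      show x (k - 1 + 1) = x k
      rw [sub_add_cancel]
    rw [h1]

theorem comap_remote : MeasurableSpace.comap S remote = remote := by
  apply le_antisymm
  · rintro A ⟨B, hB, rfl⟩
    unfold remote
    rw [MeasurableSpace.measurableSet_iInf]
    intro q
    have h1 : MeasurableSet[past (q - 1)] B := by
      unfold remote at hB
      rw [MeasurableSpace.measurableSet_iInf] at hB
      exact hB (q - 1)
    have h2 : MeasurableSet[MeasurableSpace.comap S (past (q - 1))] (S ⁻¹' B) := ⟨B, h1, rfl⟩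
    rw [comap_past, sub_add_cancel] at h2
    exact h2
  · intro A hA
    refine ⟨Si ⁻¹' A, ?_, ?_⟩
    · unfold remote at hA ⊢
      rw [MeasurableSpace.measurableSet_iInf] at hA ⊢
      intro q
      have h1 := hA (q + 1)
      rw [← comap_past] at h1
      obtain ⟨B, hB, hBA⟩ := h1
      have h2 : Si ⁻¹' A = B := by
        rw [← hBA]
        ext x
        show S (Si x) ∈ B ↔ x ∈ B
        rw [S_Si]
      rw [h2]
      exact hB
    · ext x
      show Si (S x) ∈ A ↔ x ∈ A
      rw [Si_S]

theorem S_meas_remote : Measurable[remote, remote] S := by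
  rw [measurable_iff_comap_le, comap_remote]

/-- conditional expectations given the remote past commute with the shift -/
theorem condExp_S (κ : Measure X) [IsProbabilityMeasure κ] (hS : MeasurePreserving S κ κ)
    {f : X → ℝ} (hf : Integrable f κ) :
    κ[fun x => f (S x) | remote] =ᵐ[κ] fun x => (κ[f | remote]) (S x) := by
  have hfS : Integrable (fun x => f (S x)) κ := hS.integrable_comp_of_integrable hf
  have hci : Integrable (κ[f | remote]) κ := integrable_condExp
  have hcS : Integrable (fun x => (κ[f | remote]) (S x)) κ :=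
    hS.integrable_comp_of_integrable hci
  refine (ae_eq_condExp_of_forall_setIntegral_eq remote_le hfS
    (fun s _ _ => hcS.integrableOn) (fun s hs _ => ?_) ?_).symm
  · rw [← comap_remote] at hs
    obtain ⟨B, hB, rfl⟩ := hs
    have hBm : MeasurableSet B := remote_le _ hB
    have h1 : ∀ g : X → ℝ, Integrable g κ → ∫ x in S ⁻¹' B, g (S x) ∂κ = ∫ x in B, g x ∂κ := by
      intro g hg
      have h2 := setIntegral_map (μ := κ) (f := g) (g := S) hBm
        (by rw [hS.map_eq]; exact hg.aestronglyMeasurable) hS.measurable.aemeasurable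
      rw [hS.map_eq] at h2
      exact h2.symm
    rw [h1 _ hci, h1 _ hf, setIntegral_condExp remote_le hf hB]
  · exact (stronglyMeasurable_condExp.comp_measurable S_meas_remote).aestronglyMeasurable

/-- the bias process is stationary -/
theorem P_shift (κ : Measure X) [IsProbabilityMeasure κ] (hS : MeasurePreserving S κ κ) (h : ℕ) :
    κ[fun x : X => (x (h : ℤ) : ℝ) | remote] =ᵐ[κ]
      fun x => (κ[fun x : X => (x 0 : ℝ) | remote]) (S^[h] x) := by
  have hi : ∀ k : ℤ, Integrable (fun x : X => (x k : ℝ)) κ := fun k =>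
    Integrable.of_bound (meas_y k).aestronglyMeasurable 1 (Eventually.of_forall fun x => by
      rw [Real.norm_eq_abs]
      exact abs_y x k)
  induction h with
  | zero => exact Filter.EventuallyEq.rfl
  | succ h ih =>
    have h1 := condExp_S κ hS (hi (h : ℤ))
    have h2 : (fun x : X => (x ((h + 1 : ℕ) : ℤ) : ℝ)) = fun x : X => ((S x) (h : ℤ) : ℝ) := by
      funext x
      show (x ((h + 1 : ℕ) : ℤ) : ℝ) = (x ((h : ℤ) + 1) : ℝ)
      push_cast
      rfl
    rw [h2]
    refine h1.trans ?_
    have h3 := hS.quasiMeasurePreserving.ae_eq_comp ih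
    refine h3.trans (Filter.EventuallyEq.of_eq ?_)
    funext x
    show (κ[fun x : X => (x 0 : ℝ) | remote]) (S^[h] (S x)) = _
    rw [Function.iterate_succ_apply]

theorem P_bdd (κ : Measure X) [IsProbabilityMeasure κ] (k : ℤ) :
    ∀ᵐ x ∂κ, |(κ[fun x : X => (x k : ℝ) | remote]) x| ≤ 1 :=
  ae_bdd_abs_condExp_of_ae_bdd_abs (Eventually.of_forall fun x => abs_y x k)

/-- on almost every component all the biases have the same mean square -/
theorem int_P_sq (κ : Measure X) [IsProbabilityMeasure κ] (hS : MeasurePreserving S κ κ)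
    (hc : ∀ᵐ x ∂κ, MeasurePreserving S (comp κ x) (comp κ x)) (h : ℕ) :
    ∀ᵐ x ∂κ, ∫ y, (κ[fun x : X => (x (h : ℤ) : ℝ) | remote]) y ^ 2 ∂comp κ x =
      ∫ y, (κ[fun x : X => (x 0 : ℝ) | remote]) y ^ 2 ∂comp κ x := by
  filter_upwards [hc, ae_comp κ (P_shift κ hS h)] with x hx hP
  have hm : Measurable (κ[fun x : X => (x 0 : ℝ) | remote]) :=
    (stronglyMeasurable_condExp.measurable).mono remote_le le_rfl
  have hmp := hx.iterate h
  calc ∫ y, (κ[fun x : X => (x (h : ℤ) : ℝ) | remote]) y ^ 2 ∂comp κ x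
      = ∫ y, (κ[fun x : X => (x 0 : ℝ) | remote]) (S^[h] y) ^ 2 ∂comp κ x := by
        refine integral_congr_ae ?_
        filter_upwards [hP] with y hy
        rw [hy]
    _ = ∫ y, (κ[fun x : X => (x 0 : ℝ) | remote]) y ^ 2 ∂((comp κ x).map (S^[h])) := by
        rw [integral_map hmp.measurable.aemeasurable (hm.pow_const 2).aestronglyMeasurable]
    _ = ∫ y, (κ[fun x : X => (x 0 : ℝ) | remote]) y ^ 2 ∂comp κ x := by rw [hmp.map_eq]

/-- Cauchy-Schwarz on the component -/
theorem int_PP_le (κ : Measure X) [IsProbabilityMeasure κ] (hS : MeasurePreserving S κ κ)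
    (hc : ∀ᵐ x ∂κ, MeasurePreserving S (comp κ x) (comp κ x)) (h : ℕ) :
    ∀ᵐ x ∂κ, ∫ y, (κ[fun x : X => (x 0 : ℝ) | remote]) y *
        (κ[fun x : X => (x (h : ℤ) : ℝ) | remote]) y ∂comp κ x ≤
      ∫ y, (κ[fun x : X => (x 0 : ℝ) | remote]) y ^ 2 ∂comp κ x := by
  filter_upwards [int_P_sq κ hS hc h, ae_comp κ (P_bdd κ 0), ae_comp κ (P_bdd κ h)]
    with x hx h0 h1
  have hm : ∀ k : ℤ, Measurable (κ[fun x : X => (x k : ℝ) | remote]) := fun k =>
    (stronglyMeasurable_condExp.measurable).mono remote_le le_rfl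
  have hi : ∀ k : ℤ, (∀ᵐ y ∂comp κ x, |(κ[fun x : X => (x k : ℝ) | remote]) y| ≤ 1) →
      Integrable (fun y => (κ[fun x : X => (x k : ℝ) | remote]) y ^ 2) (comp κ x) := by
    intro k hk
    refine Integrable.of_bound ((hm k).pow_const 2).aestronglyMeasurable 1 ?_
    filter_upwards [hk] with y hy
    rw [Real.norm_eq_abs, abs_pow]
    exact pow_le_one₀ (abs_nonneg _) hy
  have hij : Integrable (fun y => (κ[fun x : X => (x 0 : ℝ) | remote]) y *
      (κ[fun x : X => (x (h : ℤ) : ℝ) | remote]) y) (comp κ x) := by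
    refine Integrable.of_bound ((hm 0).mul (hm h)).aestronglyMeasurable 1 ?_
    filter_upwards [h0, h1] with y hy hy'
    rw [Real.norm_eq_abs, abs_mul]
    exact mul_le_one₀ hy (abs_nonneg _) hy'
  have h2 : ∫ y, (κ[fun x : X => (x 0 : ℝ) | remote]) y *
      (κ[fun x : X => (x (h : ℤ) : ℝ) | remote]) y ∂comp κ x ≤
      ∫ y, ((κ[fun x : X => (x 0 : ℝ) | remote]) y ^ 2 +
        (κ[fun x : X => (x (h : ℤ) : ℝ) | remote]) y ^ 2) / 2 ∂comp κ x := by
    refine integral_mono hij (((hi 0 h0).add (hi h h1)).div_const 2) fun y => ?_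
    have := sq_nonneg ((κ[fun x : X => (x 0 : ℝ) | remote]) y -
      (κ[fun x : X => (x (h : ℤ) : ℝ) | remote]) y)
    show _ ≤ ((κ[fun x : X => (x 0 : ℝ) | remote]) y ^ 2 +
        (κ[fun x : X => (x (h : ℤ) : ℝ) | remote]) y ^ 2) / 2
    nlinarith
  rw [integral_div, integral_add (hi 0 h0) (hi h h1), hx] at h2
  linarith

end Pool.Agent.H28.MG
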