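import Pool.Agent.H28.MG.Dec

/-!
# Structure of Furstenberg systems (MP_c59857_nt): the bridge between `y` and its bias
-/

set_option autoImplicit false

open MeasureTheory ProbabilityTheory Filter Topology Finset

namespace Pool.Agent.H28.MG

open Pool.Agent.H89.MT (I1 X pt z1 IsMult)
open Pool.Agent.H36.RP (S past remote remote_le past_le comp ae_comp meas_y abs_y Trit)

/-- a factor measurable for `m` may be averaged against the conditional expectation -/
theorem int_mul_condExp {ν : Measure X} [IsProbabilityMeasure ν] {mm : MeasurableSpace X}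
    (hmm : mm ≤ (MeasurableSpace.pi : MeasurableSpace X)) {f g : X → ℝ}
    (hf : StronglyMeasurable[mm] f) (hfb : ∀ᵐ x ∂ν, |f x| ≤ 1) (hg : Integrable g ν) :
    ∫ x, f x * g x ∂ν = ∫ x, f x * (ν[g | mm]) x ∂ν := by
  have hfg : Integrable (f * g) ν := by
    refine hg.bdd_mul (c := 1) (hf.mono hmm).aestronglyMeasurable ?_
    filter_upwards [hfb] with x hx
    rw [Real.norm_eq_abs]
    exact hx
  have h1 := condExp_mul_of_stronglyMeasurable_left hf hfg hg
  calc ∫ x, f x * g x ∂ν = ∫ x, (ν[f * g | mm]) x ∂ν := (integral_condExp hmm).symm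
    _ = ∫ x, f x * (ν[g | mm]) x ∂ν := integral_congr_ae h1

theorem int_y1 (ν : Measure X) [IsProbabilityMeasure ν] (k : ℤ) :
    Integrable (fun x : X => (x k : ℝ)) ν :=
  Integrable.of_bound (meas_y k).aestronglyMeasurable 1 (Eventually.of_forall fun x => by
    rw [Real.norm_eq_abs]
    exact abs_y x k)

theorem ae_bd (ν : Measure X) [IsProbabilityMeasure ν] (k : ℤ) (mm : MeasurableSpace X) :
    ∀ᵐ x ∂ν, |(ν[fun x : X => (x k : ℝ) | mm]) x| ≤ 1 :=
  ae_bdd_abs_condExp_of_ae_bdd_abs (Eventually.of_forall fun x => abs_y x k)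

/-- one measure -/
theorem bri_one {ν : Measure X} [IsProbabilityMeasure ν] (h : ℕ) (hh : 1 ≤ h)
    (h1 : ν[fun x : X => (x (h : ℤ) : ℝ) | past ((h : ℤ) - 1)] =ᵐ[ν]
      ν[fun x : X => (x (h : ℤ) : ℝ) | remote]) :
    ∫ y, (y 0 : ℝ) * (y (h : ℤ) : ℝ) ∂ν = ∫ y, (ν[fun x : X => (x 0 : ℝ) | remote]) y *
      (ν[fun x : X => (x (h : ℤ) : ℝ) | remote]) y ∂ν := by
  have m0 : StronglyMeasurable[past ((h : ℤ) - 1)] fun x : X => (x 0 : ℝ) := by
    have h2 : Measurable[past ((h : ℤ) - 1)] fun x : X => x 0 :=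
      Pool.Agent.H36.RP.meas_coord (by omega)
    exact (measurable_subtype_coe.comp h2).stronglyMeasurable
  rw [int_mul_condExp (past_le _) m0 (Eventually.of_forall fun x => abs_y x 0) (int_y1 ν h)]
  have e1 : ∫ x, (x 0 : ℝ) * (ν[fun x : X => (x (h : ℤ) : ℝ) | past ((h : ℤ) - 1)]) x ∂ν =
      ∫ x, (ν[fun x : X => (x (h : ℤ) : ℝ) | remote]) x * (x 0 : ℝ) ∂ν := by
    refine integral_congr_ae ?_
    filter_upwards [h1] with x hx
    rw [hx, mul_comm]
  rw [e1, int_mul_condExp remote_le stronglyMeasurable_condExp (ae_bd ν h _) (int_y1 ν 0)]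
  exact integral_congr_ae (Eventually.of_forall fun x => mul_comm _ _)

/-- the mean square of the conditional expectation -/
theorem sq_one {ν : Measure X} [IsProbabilityMeasure ν] :
    ∫ y, (ν[fun x : X => (x 0 : ℝ) | remote]) y ^ 2 ∂ν ≤ ∫ y, (y 0 : ℝ) ^ 2 ∂ν := by
  have hm : Measurable (ν[fun x : X => (x 0 : ℝ) | remote]) :=
    (stronglyMeasurable_condExp.measurable).mono remote_le le_rfl
  have hi : Integrable (fun y => (ν[fun x : X => (x 0 : ℝ) | remote]) y ^ 2) ν := by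
    refine Integrable.of_bound (hm.pow_const 2).aestronglyMeasurable 1 ?_
    filter_upwards [ae_bd ν 0 remote] with y hy
    rw [Real.norm_eq_abs, abs_pow]
    exact pow_le_one₀ (abs_nonneg _) hy
  have hi' : Integrable (fun y : X => (y 0 : ℝ) ^ 2) ν := by
    refine Integrable.of_bound ((meas_y 0).pow_const 2).aestronglyMeasurable 1
      (Eventually.of_forall fun y => ?_)
    rw [Real.norm_eq_abs, abs_pow]
    exact pow_le_one₀ (abs_nonneg _) (abs_y y 0)
  have hij : Integrable (fun y => (ν[fun x : X => (x 0 : ℝ) | remote]) y * (y 0 : ℝ)) ν := by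
    refine Integrable.of_bound (hm.mul (meas_y 0)).aestronglyMeasurable 1 ?_
    filter_upwards [ae_bd ν 0 remote] with y hy
    rw [Real.norm_eq_abs, abs_mul]
    exact mul_le_one₀ hy (abs_nonneg _) (abs_y y 0)
  have h1 := int_mul_condExp (ν := ν) remote_le stronglyMeasurable_condExp (ae_bd ν 0 remote)
    (int_y1 ν 0)
  have h2 : ∫ y, (ν[fun x : X => (x 0 : ℝ) | remote]) y * (y 0 : ℝ) ∂ν ≤
      ∫ y, ((ν[fun x : X => (x 0 : ℝ) | remote]) y ^ 2 + (y 0 : ℝ) ^ 2) / 2 ∂ν := by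
    refine integral_mono hij ((hi.add hi').div_const 2) fun y => ?_
    have := sq_nonneg ((ν[fun x : X => (x 0 : ℝ) | remote]) y - (y 0 : ℝ))
    show _ ≤ ((ν[fun x : X => (x 0 : ℝ) | remote]) y ^ 2 + (y 0 : ℝ) ^ 2) / 2
    nlinarith
  have h3 : ∫ x, (ν[fun x : X => (x 0 : ℝ) | remote]) x *
      (ν[fun x : X => (x 0 : ℝ) | remote]) x ∂ν =
      ∫ y, (ν[fun x : X => (x 0 : ℝ) | remote]) y ^ 2 ∂ν :=
    integral_congr_ae (Eventually.of_forall fun x => (sq _).symm)
  rw [integral_div, integral_add hi hi', h1, h3] at h2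
  linarith

/-- **The bridge**: on almost every component the correlations of `y` are those of its bias, and the
mean square of the bias is at most that of `y` -/
theorem bri (κ : Measure X) [IsProbabilityMeasure κ] (hT : Trit κ)
    (hset : ∀ (m : ℤ) (ψ : I1 → ℝ), Measurable ψ → (∀ a, |ψ a| ≤ 1) →
      κ[fun x => ψ (x m) | past (m - 1)] =ᵐ[κ] κ[fun x => ψ (x m) | remote])
    (hinv : ∀ A : Set X, MeasurableSet A → S ⁻¹' A = A →
      κ[A.indicator (fun _ => (1 : ℝ)) | remote] =ᵐ[κ] A.indicator (fun _ => (1 : ℝ))) :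
    (∀ h : ℕ, 1 ≤ h → ∀ᵐ x ∂κ, ∫ y, (y 0 : ℝ) * (y (h : ℤ) : ℝ) ∂comp κ x =
      ∫ y, P κ 0 y * P κ h y ∂comp κ x) ∧
    ∀ᵐ x ∂κ, ∫ y, P κ 0 y ^ 2 ∂comp κ x ≤ ∫ y, (y 0 : ℝ) ^ 2 ∂comp κ x := by
  have hψm : Measurable fun a : I1 => (a : ℝ) := measurable_subtype_coe
  have hψ1 : ∀ a : I1, |(a : ℝ)| ≤ 1 := fun a => abs_le.2 a.2
  obtain ⟨hc1, hc2⟩ := Pool.Agent.H36.RP.pf_comp κ hT hset hinv
  have hP := fun m => hc2 m (fun a : I1 => (a : ℝ)) hψm hψ1
  constructor
  · intro h hh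
    filter_upwards [hc1, hP 0, hP h] with x h1 h2 h3
    rw [bri_one h hh (h1 h (fun a : I1 => (a : ℝ)) hψm hψ1)]
    refine integral_congr_ae ?_
    filter_upwards [h2, h3] with y h4 h5
    unfold P
    rw [h4, h5]
  · filter_upwards [hP 0] with x h2
    refine le_trans (le_of_eq ?_) (sq_one (ν := comp κ x))
    refine integral_congr_ae ?_
    filter_upwards [h2] with y h4
    unfold P
    rw [h4]

end Pool.Agent.H28.MG
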