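import Pool.Agent.H28.MG.Shift
import Pool.Agent.H24.WN.Mass

/-!
# Structure of Furstenberg systems (MP_c59857_nt): the spectral measures of `y 0` and of its bias
-/

set_option autoImplicit false

open MeasureTheory ProbabilityTheory Filter Topology Finset

namespace Pool.Agent.H28.MG

open Pool.Agent.H89.MT (I1 X pt z1 IsMult)
open Pool.Agent.H36.RP (S past remote remote_le past_le comp ae_comp meas_y abs_y)

/-- `P κ n` is the conditional expectation of the coordinate `x n` given the remote past -/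
noncomputable def P (κ : Measure X) (n : ℤ) : X → ℝ := κ[fun x : X => (x n : ℝ) | remote]

/-- the spectral measures of `P 0` and of `y 0` are the same discrete measure plus `v` and `w` times
Lebesgue measure -/
def Dec (κ ν : Measure X) (v w : ℝ) : Prop := ∃ b θ : ℕ → ℝ, (∀ j, 0 ≤ b j) ∧ Summable b ∧
  ∫ y, P κ 0 y ^ 2 ∂ν = ∑' j, b j + v ∧ ∫ y, (y 0 : ℝ) ^ 2 ∂ν = ∑' j, b j + w ∧
  ∀ h : ℕ, 1 ≤ h →
    ∫ y, P κ 0 y * P κ h y ∂ν = ∑' j, b j * Real.cos (2 * Real.pi * θ j * h) ∧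
    ∫ y, (y 0 : ℝ) * (y (h : ℤ) : ℝ) ∂ν = ∑' j, b j * Real.cos (2 * Real.pi * θ j * h)

/-- the mean square of the noise on the component -/
noncomputable def D (κ : Measure X) [IsProbabilityMeasure κ] (x : X) : ℝ :=
  max 0 (∫ y, (y 0 : ℝ) ^ 2 ∂comp κ x - ∫ y, P κ 0 y ^ 2 ∂comp κ x)

/-- the density of the spectral measure of the bias -/
noncomputable def V (κ : Measure X) [IsProbabilityMeasure κ] (x : X) : ℝ :=
  max 0 (Pool.Agent.H24.WN.W κ x - D κ x)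

theorem P_meas (κ : Measure X) (n : ℤ) : Measurable (P κ n) :=
  (stronglyMeasurable_condExp.measurable).mono remote_le le_rfl

theorem int_meas (κ : Measure X) [IsProbabilityMeasure κ] {g : X → ℝ} (hg : Measurable g) :
    Measurable fun x => ∫ y, g y ∂comp κ x := by
  have h3 := StronglyMeasurable.integral_condExpKernel (μ := κ)
    (m := MeasurableSpace.invariants S) hg.stronglyMeasurable
  exact (h3.mono Pool.Agent.H36.RP.IS_le).measurable

theorem D_meas (κ : Measure X) [IsProbabilityMeasure κ] : Measurable (D κ) :=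
  measurable_const.max ((int_meas κ ((meas_y 0).pow_const 2)).sub
    (int_meas κ ((P_meas κ 0).pow_const 2)))

theorem V_meas (κ : Measure X) [IsProbabilityMeasure κ] : Measurable (V κ) :=
  measurable_const.max ((Pool.Agent.H24.WN.W_meas κ).sub (D_meas κ))

theorem V_mem (κ : Measure X) [IsProbabilityMeasure κ] (x : X) :
    0 ≤ V κ x ∧ V κ x ≤ Pool.Agent.H24.WN.W κ x ∧ Pool.Agent.H24.WN.W κ x ≤ 1 := by
  have h1 := Pool.Agent.H24.WN.W_mem κ x
  have h2 : 0 ≤ D κ x := le_max_left _ _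
  exact ⟨le_max_left _ _, max_le h1.1 (by linarith), h1.2⟩

/-- **The decomposition on the components** -/
theorem dec (κ : Measure X) [IsProbabilityMeasure κ] (hS : MeasurePreserving S κ κ)
    (hW : ∀ᵐ x ∂κ, Pool.Agent.H24.WN.Spec (comp κ x) (Pool.Agent.H24.WN.W κ x))
    (hB : ∀ h : ℕ, 1 ≤ h → ∀ᵐ x ∂κ, ∫ y, (y 0 : ℝ) * (y (h : ℤ) : ℝ) ∂comp κ x =
      ∫ y, P κ 0 y * P κ h y ∂comp κ x)
    (hN : ∀ᵐ x ∂κ, ∫ y, P κ 0 y ^ 2 ∂comp κ x ≤ ∫ y, (y 0 : ℝ) ^ 2 ∂comp κ x) :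
    ∀ᵐ x ∂κ, Dec κ (comp κ x) (V κ x) (Pool.Agent.H24.WN.W κ x) := by
  have hc : ∀ᵐ x ∂κ, MeasurePreserving S (comp κ x) (comp κ x) :=
    Pool.Agent.H24.EG.comp_mp κ hS
  have hB' : ∀ᵐ x ∂κ, ∀ h : ℕ, 1 ≤ h → ∫ y, (y 0 : ℝ) * (y (h : ℤ) : ℝ) ∂comp κ x =
      ∫ y, P κ 0 y * P κ h y ∂comp κ x := by
    rw [ae_all_iff]
    intro h
    by_cases hh : 1 ≤ h
    · filter_upwards [hB h hh] with x hx _
      exact hx
    · exact Eventually.of_forall fun x h1 => absurd h1 hh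
  have hC : ∀ᵐ x ∂κ, ∀ h : ℕ, ∫ y, P κ 0 y * P κ h y ∂comp κ x ≤ ∫ y, P κ 0 y ^ 2 ∂comp κ x := by
    rw [ae_all_iff]
    exact fun h => int_PP_le κ hS hc h
  filter_upwards [hW, hB', hC, hN] with x hW hB hC hN
  obtain ⟨b, θ, hb0, hb, h0, hh⟩ := hW
  -- the mass of the discrete part
  have hmass : ∑' j, b j ≤ ∫ y, P κ 0 y ^ 2 ∂comp κ x := by
    refine le_of_forall_pos_lt_add fun ε hε => ?_
    obtain ⟨m, hm, hlt⟩ := Pool.Agent.H24.WN.mass b θ hb0 hb hε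
    rw [← hh m hm, hB m hm] at hlt
    have := hC m
    linarith
  have hD : D κ x = ∫ y, (y 0 : ℝ) ^ 2 ∂comp κ x - ∫ y, P κ 0 y ^ 2 ∂comp κ x :=
    max_eq_right (sub_nonneg.2 hN)
  have hV : V κ x = ∫ y, P κ 0 y ^ 2 ∂comp κ x - ∑' j, b j := by
    unfold V
    rw [hD]
    have e : Pool.Agent.H24.WN.W κ x - (∫ y, (y 0 : ℝ) ^ 2 ∂comp κ x -
        ∫ y, P κ 0 y ^ 2 ∂comp κ x) = ∫ y, P κ 0 y ^ 2 ∂comp κ x - ∑' j, b j := by
      have h0' : ∫ y, (y 0 : ℝ) ^ 2 ∂comp κ x = ∑' j, b j + Pool.Agent.H24.WN.W κ x := h0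
      rw [h0']
      ring
    rw [e]
    exact max_eq_right (by linarith)
  refine ⟨b, θ, hb0, hb, ?_, h0, fun h h1 => ⟨?_, hh h h1⟩⟩
  · rw [hV]
    ring
  · rw [← hB h h1]
    exact hh h h1

end Pool.Agent.H28.MG
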