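import Pool.Agent.H28.MG.RP
import Pool.Agent.H28.MG.Bri
import Pool.Agent.H24.WN.Cls
import Pool.Agent.H92.WN.FNR

/-!
# Structure of Furstenberg systems (MP_c59857_nt): the theorem
-/

set_option autoImplicit false

open MeasureTheory ProbabilityTheory Filter Topology Finset

namespace Pool.Agent.H28.MG

open Pool.Agent.H89.MT (I1 X pt z1 IsMult)
open Pool.Agent.H36.RP (S past remote remote_le past_le comp ae_comp meas_y abs_y Trit)
open Pool.Agent.H95.RP (bias)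
open Pool.Agent.H24.WT (QGW qgw_mp)
open Pool.Agent.H92.WN (FinU T_GLR)
open Pool.Agent.H93.ES (T_QSU)

/-- the invariant sets belong to the remote past, form with sets -/
theorem inv_sets (κ : Measure X) [IsProbabilityMeasure κ] (hS : MeasurePreserving S κ κ)
    (A : Set X) (hA : MeasurableSet A) (hSA : S ⁻¹' A = A) :
    ∃ B : Set X, MeasurableSet[remote] B ∧ A =ᵐ[κ] B := by
  have h1 := aINV κ hS A hA hSA
  refine ⟨(κ[A.indicator (fun _ => (1 : ℝ)) | remote]) ⁻¹' {1}, ?_, ?_⟩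
  · exact (stronglyMeasurable_condExp.measurable) (measurableSet_singleton 1)
  · rw [Filter.eventuallyEq_set]
    filter_upwards [h1] with x hx
    rw [Set.mem_preimage, hx, Set.mem_singleton_iff]
    by_cases h : x ∈ A
    · simp [h]
    · simp [h]

/-- the finite form for the class -/
theorem finU_of (hG : T_GLR) (hQ : T_QSU) {u : ℕ → I1}
    (hm : ∀ m n : ℕ, m.Coprime n → (u (m * n) : ℝ) = u m * u n)
    (hs : Summable (fun p : {p : ℕ // p.Prime} => (1 - (u p : ℝ) ^ 2) / (p : ℝ))) :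
    FinU fun n => (u n : ℝ) := by
  refine Pool.Agent.H92.WN.pf_FNR hG hQ _ ⟨fun n => abs_le.2 (u n).2, fun m n _ _ h => hm m n h, ?_⟩
  refine Summable.of_nonneg_of_le (fun p => ?_) (fun p => ?_) hs
  · have h1 : |(u (p : ℕ) : ℝ)| ≤ 1 := abs_le.2 (u p).2
    exact div_nonneg (by linarith) (Nat.cast_nonneg _)
  · have h1 : |(u (p : ℕ) : ℝ)| ≤ 1 := abs_le.2 (u p).2
    have h2 : (u (p : ℕ) : ℝ) ^ 2 ≤ |(u (p : ℕ) : ℝ)| := by
      rw [← sq_abs]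
      have := abs_nonneg (u (p : ℕ) : ℝ)
      nlinarith
    exact div_le_div_of_nonneg_right (by linarith) (Nat.cast_nonneg _)

/-- the spectral part for `y`, every case -/
theorem spec_all (hG : T_GLR) (hQ : T_QSU) {u : ℕ → I1}
    (hm : ∀ m n : ℕ, m.Coprime n → (u (m * n) : ℝ) = u m * u n)
    {κ : Measure X} [IsProbabilityMeasure κ] (hκ : QGW u κ) :
    ∀ᵐ x ∂κ, Pool.Agent.H24.WN.Spec (Pool.Agent.H24.EG.comp κ x) (Pool.Agent.H24.WN.W κ x) := by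
  by_cases hs : Summable (fun p : {p : ℕ // p.Prime} => (1 - (u p : ℝ) ^ 2) / (p : ℝ))
  · exact (Pool.Agent.H24.WN.white_of hκ (finU_of hG hQ hm hs)).1
  · exact Pool.Agent.H24.WN.white_zero (Pool.Agent.H70.WN.pf_TRW u κ hm hκ hs)

/-- **Structure of the Furstenberg systems** -/
theorem main (hG : T_GLR) (hQ : T_QSU) (q : ℕ) [NeZero q] : ∃ c : ℝ, 0 < c ∧ ∀ u : ℕ → I1,
    Tri u → (∀ m n : ℕ, m.Coprime n → (u (m * n) : ℝ) = u m * u n) →
    ∀ (κ : Measure X) [IsProbabilityMeasure κ], QGW u κ →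
      iCondIndepFun remote remote_le (fun (n : ℤ) (x : X) => x n) κ ∧
      (∀ A : Set X, MeasurableSet[remote] A → ∀ m : ℤ,
        ∃ B : Set X, MeasurableSet[bias κ m] B ∧ A =ᵐ[κ] B) ∧
      (∀ A : Set X, MeasurableSet A → S ⁻¹' A = A →
        ∃ B : Set X, MeasurableSet[remote] B ∧ A =ᵐ[κ] B) ∧
      ((∀ (s : Finset ℤ) (n : ℤ) (e : ℤ → ℕ), n ∉ s →
        ∫ x, (x n : ℝ) * ∏ k ∈ s, (x k : ℝ) ^ e k ∂κ = 0) ↔ P κ 0 =ᵐ[κ] 0) ∧
      ∃ v w : X → ℝ, Measurable v ∧ Measurable w ∧ (∀ x, 0 ≤ v x ∧ v x ≤ w x ∧ w x ≤ 1) ∧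
        (∀ᵐ x ∂κ, Dec κ (comp κ x) (v x) (w x)) ∧
        ((∃ χ : DirichletCharacter ℂ q, ∀ p : ℕ, p.Prime → ((u p : ℝ) : ℂ) = -χ p) →
          c ≤ ∫ x, w x ∂κ) := by
  obtain ⟨c, hc, hfar⟩ := Pool.Agent.H24.WN.far_mult q
  refine ⟨c, hc, fun u hT hm κ _ hκ => ?_⟩
  obtain ⟨hS, hTr⟩ := Pool.Agent.H2.RP.pf_MP u hT κ (qg_of hκ)
  have hset := set_all hT hm hκ
  have hind : iCondIndepFun remote remote_le (fun (n : ℤ) (x : X) => x n) κ :=
    Pool.Agent.H17.RP.pf_IND κ hset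
  have hinv : ∀ A : Set X, MeasurableSet A → S ⁻¹' A = A →
      κ[A.indicator (fun _ => (1 : ℝ)) | remote] =ᵐ[κ] A.indicator (fun _ => (1 : ℝ)) :=
    aINV κ hS
  obtain ⟨hB, hN⟩ := bri κ hTr hset hinv
  refine ⟨hind, fun A hA m =>
    Pool.Agent.H95.RP.gen_sets Pool.Agent.H36.RP.pf_APX κ hTr hind m A hA,
    inv_sets κ hS, Pool.Agent.H85.RP.pf_CHO κ hS hTr hset hind, V κ,
    Pool.Agent.H24.WN.W κ, V_meas κ, Pool.Agent.H24.WN.W_meas κ, V_mem κ,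
    dec κ hS (spec_all hG hQ hm hκ) hB hN, fun hχ => ?_⟩
  obtain ⟨G, hGm, hG1, hGc, hGF⟩ := hfar u hm hχ κ hκ
  exact (Pool.Agent.H24.WN.white_of hκ (finU_of hG hQ hm
    (Pool.Agent.H24.WN.summ_chi u hχ))).2 c G hGm hG1 hGc hGF

end Pool.Agent.H28.MG
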