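import Pool.Agent.H28.MG.Zero
import Pool.Agent.H36.RP.CMP2
import Pool.Agent.H36.RP.APX
import Pool.Agent.H95.RP.GEN
import Pool.Agent.H2.RP.MP
import Pool.Agent.H12.RP.AR
import Pool.Agent.H12.RP.ST
import Pool.Agent.H14.RP.MW
import Pool.Agent.H17.RP.APF
import Pool.Agent.H17.RP.IND
import Pool.Agent.H19.RP.SET
import Pool.Agent.H19.RP.TAI
import Pool.Agent.H35.RP.PYT
import Pool.Agent.H85.RP.CHO
import Pool.Agent.H85.RP.INV
import Pool.Agent.H96.RP.PRD
import Pool.Agent.H70.WN.TRW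

/-!
# Structure of Furstenberg systems (MP_c59857_nt): the remote past, composition
-/

set_option autoImplicit false

open MeasureTheory ProbabilityTheory Filter Topology Finset

namespace Pool.Agent.H28.MG

open Pool.Agent.H89.MT (I1 X pt z1 IsMult)
open Pool.Agent.H36.RP (S past remote remote_le Trit T_IND T_SET T_ST T_INV T_CHO past_le
  QuasiGeneric)

theorem aSET : T_SET :=
  Pool.Agent.H19.RP.pf_SET
    (Pool.Agent.H96.RP.pf_PRD Pool.Agent.H36.RP.pf_APX Pool.Agent.H35.RP.pf_PYT)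
    Pool.Agent.H19.RP.pf_TAI

theorem aINV : T_INV :=
  Pool.Agent.H85.RP.pf_INV Pool.Agent.H17.RP.pf_APF Pool.Agent.H35.RP.pf_PYT
    Pool.Agent.H19.RP.pf_TAI

theorem aST : T_ST := Pool.Agent.H12.RP.pf_ST Pool.Agent.H14.RP.pf_MW Pool.Agent.H12.RP.pf_AR

/-- the values of `u` -/
def Tri (u : ℕ → I1) : Prop := ∀ n, (u n : ℝ) = -1 ∨ (u n : ℝ) = 0 ∨ (u n : ℝ) = 1

/-- from the windows of `QGW` to all windows -/
theorem qg_of {u : ℕ → I1} {κ : Measure X} (hκ : Pool.Agent.H24.WT.QGW u κ) :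
    QuasiGeneric u κ := by
  obtain ⟨-, Y, Z, hYZ, hL, hF⟩ := hκ
  exact ⟨Y, Z, fun k => ⟨(hYZ k).1, (hYZ k).2.1⟩, hL, hF⟩

/-- the condition on the primes in the nontrivial case -/
theorem not_summ {u : ℕ → I1} (hT : Tri u)
    (hs : Summable (fun p : {p : ℕ // p.Prime} => (1 - (u p : ℝ) ^ 2) / (p : ℝ))) :
    ¬ Summable (fun p : ℕ => if p.Prime ∧ (u p : ℝ) ≠ 0 then (1 : ℝ) / p else 0) := by
  intro h
  have h1 : Summable (fun p : {p : ℕ // p.Prime} =>
      if (p : ℕ).Prime ∧ (u (p : ℕ) : ℝ) ≠ 0 then (1 : ℝ) / (p : ℕ) else 0) :=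
    h.comp_injective Subtype.val_injective
  have h2 := hs.add h1
  have h3 : Summable (fun p : {p : ℕ // p.Prime} => (1 : ℝ) / ((p : ℕ) : ℝ)) := by
    refine h2.congr fun p => ?_
    rcases hT p with h | h | h
    · rw [if_pos ⟨p.2, by rw [h]; norm_num⟩, h]
      norm_num
    · rw [if_neg (fun hc => hc.2 h), h]
      norm_num
    · rw [if_pos ⟨p.2, by rw [h]; norm_num⟩, h]
      norm_num
  exact Nat.Primes.not_summable_one_div h3

/-- a nonzero value gives `u 1 = 1` -/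
theorem mult_of {u : ℕ → I1} (hm : ∀ m n : ℕ, m.Coprime n → (u (m * n) : ℝ) = u m * u n)
    {p : ℕ} (hp : (u p : ℝ) ≠ 0) : IsMult u := by
  refine ⟨?_, fun m n _ _ h => hm m n h⟩
  have h4 := hm 1 p (Nat.coprime_one_left p)
  rw [one_mul] at h4
  exact mul_right_cancel₀ hp (by rw [one_mul]; exact h4.symm)

/-- the prediction from the past is the prediction from the remote past -/
theorem set_all {u : ℕ → I1} (hT : Tri u) (hm : ∀ m n : ℕ, m.Coprime n → (u (m * n) : ℝ) = u m * u n)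
    {κ : Measure X} [IsProbabilityMeasure κ] (hκ : Pool.Agent.H24.WT.QGW u κ) :
    ∀ (m : ℤ) (ψ : I1 → ℝ), Measurable ψ → (∀ a, |ψ a| ≤ 1) →
      κ[fun x => ψ (x m) | past (m - 1)] =ᵐ[κ] κ[fun x => ψ (x m) | remote] := by
  obtain ⟨hS, hTr⟩ := Pool.Agent.H2.RP.pf_MP u hT κ (qg_of hκ)
  by_cases hs : Summable (fun p : {p : ℕ // p.Prime} => (1 - (u p : ℝ) ^ 2) / (p : ℝ))
  · have h1 := not_summ hT hs
    have hp : ∃ p : ℕ, (u p : ℝ) ≠ 0 := by
      by_contra hc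
      push Not at hc
      apply h1
      have : (fun p : ℕ => if p.Prime ∧ (u p : ℝ) ≠ 0 then (1 : ℝ) / p else 0) = fun _ => 0 := by
        funext p
        rw [if_neg (fun h => h.2 (hc p))]
      rw [this]
      exact summable_zero
    obtain ⟨p, hp⟩ := hp
    have hst := aST u (mult_of hm hp) hT h1 κ (qg_of hκ)
    exact fun m ψ _ _ => aSET κ hS hst hTr m ψ
  · have h0 := zero_all hS (Pool.Agent.H70.WN.pf_TRW u κ hm hκ hs)
    exact fun m ψ _ _ => set_zero h0 m ψ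

end Pool.Agent.H28.MG
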