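import Pool.Agent.H36.RP.Targets
import Pool.Agent.H24.EG.Comp

/-!
# Structure of Furstenberg systems (MP_c59857_nt): the trivial case
-/

set_option autoImplicit false

open MeasureTheory ProbabilityTheory Filter Topology Finset

namespace Pool.Agent.H28.MG

open Pool.Agent.H89.MT (I1 X pt z1 IsMult)
open Pool.Agent.H36.RP (S past remote remote_le Trit T_IND past_le)

/-- all the coordinates vanish -/
theorem zero_all {κ : Measure X} [IsProbabilityMeasure κ] (hS : MeasurePreserving S κ κ)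
    (h0 : ∫ y, (y 0 : ℝ) ^ 2 ∂κ = 0) : ∀ᵐ x ∂κ, ∀ k : ℤ, (x k : ℝ) = 0 := by
  have hm : ∀ k : ℤ, Measurable fun y : X => (y k : ℝ) ^ 2 := fun k =>
    (measurable_subtype_coe.comp (measurable_pi_apply k)).pow_const 2
  have hi : ∀ k : ℤ, Integrable (fun y : X => (y k : ℝ) ^ 2) κ := fun k =>
    Integrable.of_bound (C := 1) (hm k).aestronglyMeasurable (Eventually.of_forall fun y => by
      rw [Real.norm_eq_abs, abs_pow]
      exact pow_le_one₀ (abs_nonneg _) (abs_le.2 (y k).2))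
  have hit : ∀ (h : ℕ) (x : X) (t : ℤ), (S^[h] x) t = x (t + h) := fun h x t =>
    Pool.Agent.H24.EG.iter_S h x t
  have hsh : ∀ (h : ℕ) (k : ℤ), ∫ y, (y (k + h) : ℝ) ^ 2 ∂κ = ∫ y, (y k : ℝ) ^ 2 ∂κ := by
    intro h k
    have hmp := hS.iterate h
    calc ∫ y, (y (k + h) : ℝ) ^ 2 ∂κ = ∫ y, ((S^[h] y) k : ℝ) ^ 2 ∂κ := by
          refine integral_congr_ae (Eventually.of_forall fun y => ?_)
          simp only [hit]
      _ = ∫ y, (y k : ℝ) ^ 2 ∂(κ.map (S^[h])) := by
          rw [integral_map hmp.measurable.aemeasurable (hm k).aestronglyMeasurable]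
      _ = ∫ y, (y k : ℝ) ^ 2 ∂κ := by rw [hmp.map_eq]
  have hz : ∀ k : ℤ, ∫ y, (y k : ℝ) ^ 2 ∂κ = 0 := by
    intro k
    rcases le_total 0 k with hk | hk
    · have h1 := hsh k.toNat 0
      have h2 : (0 : ℤ) + (k.toNat : ℤ) = k := by omega
      rw [h2] at h1
      rw [h1, h0]
    · have h1 := hsh (-k).toNat k
      have h2 : k + ((-k).toNat : ℤ) = 0 := by omega
      rw [h2, h0] at h1
      exact h1.symm
  rw [ae_all_iff]
  intro k
  have h1 := (integral_eq_zero_iff_of_nonneg (fun y => sq_nonneg _) (hi k)).1 (hz k)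
  filter_upwards [h1] with x hx
  exact pow_eq_zero_iff (two_ne_zero) |>.1 hx

theorem ae_const {κ : Measure X} (h : ∀ᵐ x ∂κ, ∀ k : ℤ, (x k : ℝ) = 0) {α : Type*} (g : X → α) :
    g =ᵐ[κ] fun _ => g (fun _ => z1) := by
  filter_upwards [h] with x hx
  have : x = fun _ => z1 := by
    funext k
    apply Subtype.ext
    rw [hx k]
    rfl
  rw [this]

/-- the prediction is trivial -/
theorem set_zero {κ : Measure X} [IsProbabilityMeasure κ]
    (h : ∀ᵐ x ∂κ, ∀ k : ℤ, (x k : ℝ) = 0) (m : ℤ) (ψ : I1 → ℝ) :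
    κ[fun x => ψ (x m) | past (m - 1)] =ᵐ[κ] κ[fun x => ψ (x m) | remote] := by
  have h1 : (fun x : X => ψ (x m)) =ᵐ[κ] fun _ => ψ z1 := ae_const h fun x : X => ψ (x m)
  refine (condExp_congr_ae h1).trans ?_
  refine Filter.EventuallyEq.trans ?_ (condExp_congr_ae h1).symm
  rw [condExp_const (past_le _), condExp_const remote_le]

/-- independence in the trivial case -/
theorem ind_zero (hI : T_IND) {κ : Measure X} [IsProbabilityMeasure κ]
    (h : ∀ᵐ x ∂κ, ∀ k : ℤ, (x k : ℝ) = 0) :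
    iCondIndepFun remote remote_le (fun (n : ℤ) (x : X) => x n) κ :=
  hI κ fun m ψ _ _ => set_zero h m ψ

end Pool.Agent.H28.MG
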